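import Pool.Agent.helper10.V3.SpecL

set_option autoImplicit false

open Complex Metric Set Filter Topology MeasureTheory MPS

noncomputable section

namespace V3S

theorem BA4 (hNLB : MPS.NLB_stmt) : BA4_stmt := by
  intro n ra Cf D G
  have hlog : Real.log ‖PPS.rho D.f D.b‖ = D.lam.re := by
    rw [G.hrho, Complex.norm_exp, Real.log_exp]
  have h1 : 1 < ‖PPS.rho D.f D.b‖ := by
    rw [G.hrho, Complex.norm_exp]
    exact Real.one_lt_exp_iff.mpr G.lam0
  refine ⟨?_, h1, hlog, ?_⟩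
  · intro R hR
    refine ⟨G.hn, G.hdeg, G.hk, G.cyc, h1, G.mx, G.hra, hR, G.ra0.trans hR, G.inv R hR, ?_⟩
    rw [hlog]
    have h2 : D.lam.re ≤ ‖D.lam‖ := Complex.re_le_norm _
    have h3 := G.her R hR
    have h4 : Cf R * ‖D.lam‖ ≤ |Cf R| * ‖D.lam‖ :=
      mul_le_mul_of_nonneg_right (le_abs_self _) (norm_nonneg _)
    have h5 : 2 * Real.pi * D.lam.re ≤ 2 * Real.pi * ‖D.lam‖ :=
      mul_le_mul_of_nonneg_left h2 (by positivity)
    nlinarith [h3, h4, h5]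
  · have hne : (1 : ZMod D.k) ≠ 0 := by
      have : Fact (1 < D.k) := ⟨G.hk⟩
      exact one_ne_zero
    have h := hNLB D.k D.b D.g 0 1 (D.ψ 0) 1 G.cyc.inj hne (G.mx 0).pn
    rw [mul_one] at h
    have h6 : ‖D.b 0 - D.b 1‖ ≤ ra + ra := (norm_sub_le _ _).trans (add_le_add (G.hra 0) (G.hra 1))
    show ‖deriv (D.ψ 0) 0‖ ≤ 16000 * ra
    linarith

end V3S
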