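import Pool.Agent.helper54.V3.SpecE

set_option autoImplicit false

open Complex Metric Set Filter Topology MeasureTheory

noncomputable section

namespace V3

lemma PRAT_im {t : ℂ} (ht : t ≠ 0) {x : ℂ} (hx : x ∈ ZL t) : (x / t).im = 0 := by
  obtain ⟨n, rfl⟩ := hx
  simp [ht]

lemma PRAT_add {t x : ℂ} : x + t ∈ ZL t ↔ x ∈ ZL t := by
  constructor
  · rintro ⟨n, hn⟩
    refine ⟨n - 1, ?_⟩
    have hn' : (n : ℂ) * t = x + t := hn
    show ((n - 1 : ℤ) : ℂ) * t = x
    push_cast
    linear_combination hn'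
  · rintro ⟨n, hn⟩
    refine ⟨n + 1, ?_⟩
    have hn' : (n : ℂ) * t = x := hn
    show ((n + 1 : ℤ) : ℂ) * t = x + t
    push_cast
    linear_combination hn'

lemma PRAT_exp_add {t : ℂ} (ht : t ≠ 0) (x : ℂ) :
    exp (2 * Real.pi * I * (x + t) / t) = exp (2 * Real.pi * I * x / t) := by
  have : 2 * (Real.pi : ℂ) * I * (x + t) / t = 2 * Real.pi * I * x / t + 2 * Real.pi * I := by
    field_simp
  rw [this, Complex.exp_add, Complex.exp_two_pi_mul_I, mul_one]

lemma PRAT_exp_ne {t : ℂ} (ht : t ≠ 0) {x : ℂ} (hx : x ∉ ZL t) :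
    exp (2 * Real.pi * I * x / t) ≠ 1 := by
  intro h
  rw [Complex.exp_eq_one_iff] at h
  obtain ⟨n, hn⟩ := h
  apply hx
  refine ⟨n, ?_⟩
  show (n : ℂ) * t = x
  have hpi : (2 * (Real.pi : ℂ) * I) ≠ 0 := Complex.two_pi_I_ne_zero
  have h1 : 2 * (Real.pi : ℂ) * I * x = n * (2 * Real.pi * I) * t := by
    rw [div_eq_iff ht] at hn
    exact hn
  have h2 : (2 * (Real.pi : ℂ) * I) * (x - n * t) = 0 := by linear_combination h1
  rcases mul_eq_zero.mp h2 with h | h
  · exact absurd h hpi
  · exact (sub_eq_zero.mp h).symm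

/-- a periodic entire function whose norm is at most `K / |Im (x/t)|` far from the line vanishes. -/
lemma PRAT_liou (w : ℂ → ℂ) (t : ℂ) (K : ℝ) (ht : t ≠ 0) (hw : Differentiable ℂ w)
    (hp : ∀ x, w (x + t) = w x) (hK : ∀ x : ℂ, 1 ≤ |(x / t).im| → ‖w x‖ ≤ K / |(x / t).im|) :
    ∀ x, w x = 0 := by
  have hK0 : 0 ≤ K := by
    have h1 : ((t * I) / t).im = 1 := by
      rw [mul_div_cancel_left₀ _ ht]; simp
    have := hK (t * I) (by rw [h1]; simp)
    rw [h1] at this
    simp at this
    exact le_trans (norm_nonneg _) this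
  -- integer periods
  have hpn : ∀ (n : ℕ) (x : ℂ), w (x + n * t) = w x := by
    intro n
    induction n with
    | zero => intro x; simp
    | succ n ih =>
      intro x
      have : x + ((n + 1 : ℕ) : ℂ) * t = (x + n * t) + t := by push_cast; ring
      rw [this, hp, ih]
  have hpz : ∀ (n : ℤ) (x : ℂ), w (x + n * t) = w x := by
    intro n x
    rcases Int.eq_nat_or_neg n with ⟨m, rfl | rfl⟩
    · simpa using hpn m x
    · have h := hpn m (x + ((-(m : ℤ) : ℤ) : ℂ) * t)
      have e : x + ((-(m : ℤ) : ℤ) : ℂ) * t + m * t = x := by push_cast; ring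
      rw [e] at h
      exact h.symm
  -- the compact set
  have hcomp : IsCompact ((fun z : ℂ => t * z) '' (Icc (0 : ℝ) 1 ×ℂ Icc (-1 : ℝ) 1)) :=
    (isCompact_Icc.reProdIm isCompact_Icc).image (by fun_prop)
  obtain ⟨C, hC⟩ := hcomp.exists_bound_of_continuousOn (f := w) hw.continuous.continuousOn
  have hbd : ∀ x, ‖w x‖ ≤ max C K := by
    intro x
    by_cases h : 1 ≤ |(x / t).im|
    · refine (hK x h).trans ((div_le_self hK0 h).trans (le_max_right _ _))
    · push Not at h
      have h2 := abs_lt.mp h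
      set n : ℤ := ⌊(x / t).re⌋ with hn
      have hx : w x = w (x + ((-n : ℤ) : ℂ) * t) := (hpz (-n) x).symm
      rw [hx]
      refine (hC _ ?_).trans (le_max_left _ _)
      refine ⟨x / t - n, ?_, ?_⟩
      · rw [Complex.mem_reProdIm]
        refine ⟨⟨?_, ?_⟩, ⟨?_, ?_⟩⟩
        · simp only [Complex.sub_re, Complex.intCast_re]
          have := Int.floor_le (x / t).re
          rw [← hn] at this
          linarith
        · simp only [Complex.sub_re, Complex.intCast_re]
          have := (Int.lt_floor_add_one (x / t).re).le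
          rw [← hn] at this
          linarith
        · simp only [Complex.sub_im, Complex.intCast_im]
          linarith [h2.1]
        · simp only [Complex.sub_im, Complex.intCast_im]
          linarith [h2.2]
      · show t * (x / t - n) = x + ((-n : ℤ) : ℂ) * t
        push_cast
        field_simp
        ring
  have hrange : Bornology.IsBounded (Set.range w) := by
    rw [isBounded_iff_forall_norm_le]
    exact ⟨max C K, by rintro _ ⟨x, rfl⟩; exact hbd x⟩
  have hconst : ∀ x y, w x = w y := fun x y => hw.apply_eq_apply_of_bounded hrange x y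
  intro x
  by_contra hne
  have hpos : 0 < ‖w x‖ := norm_pos_iff.mpr hne
  -- take Y large
  set Y : ℝ := max 1 (K / ‖w x‖ + 1) with hY
  have hY1 : 1 ≤ Y := le_max_left _ _
  have hY2 : K / ‖w x‖ + 1 ≤ Y := le_max_right _ _
  have him : ((t * (Y * I)) / t).im = Y := by
    rw [mul_div_cancel_left₀ _ ht]; simp
  have h := hK (t * (Y * I)) (by rw [him, abs_of_nonneg (by linarith)]; exact hY1)
  rw [him, abs_of_nonneg (by linarith), hconst (t * (Y * I)) x, le_div_iff₀ (by linarith)] at h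
  have h3 : K / ‖w x‖ < Y := by linarith
  rw [div_lt_iff₀ hpos] at h3
  linarith

theorem PRAT (hPPE : PPE_stmt) (hREMO : REMO_stmt) (hPDE : PDE_stmt) (hPR0 : PR0_stmt)
    (hAFF2 : AFF2_stmt) (hPCO : PCO_stmt) : PRAT_stmt := by
  intro P A g B v q θ t L ht hP hA
  obtain ⟨-, -, hBper, hgper⟩ := hPPE P A g B v q θ t L ht hP hA
  obtain ⟨R₀, hR, hRd, hRp, K₀, hK₀⟩ := hPR0 t (g 0) ht
  obtain ⟨K₁, hK₁⟩ := hPDE P A g B v q θ t L ht hP
  obtain ⟨s, hs, hsep⟩ := L.sep
  obtain ⟨hPcl, hPct, -⟩ := hPCO P s hs hsep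
  have hPo : IsOpen Pᶜ := hPcl.isOpen_compl
  have hRd' : DifferentiableOn ℂ R₀ Pᶜ := by rw [hP]; exact hRd
  obtain ⟨k, hkd, hk⟩ := hREMO (fun x => B x - R₀ x) P s hs hsep (L.Bd.sub hRd') (by
    intro p hp
    obtain ⟨h, ha, he⟩ := L.Bp p hp
    obtain ⟨h', ha', he'⟩ := hRp p (by rw [← hP]; exact hp)
    refine ⟨fun x => h x - h' x, ha.sub ha', ?_⟩
    filter_upwards [he, he'] with x h1 h2
    rw [h1, h2, hgper p hp]
    ring)
  have hPper : ∀ x, x + t ∈ P ↔ x ∈ P := by
    intro x; rw [hP]; exact PRAT_add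
  have hRper : ∀ x, R₀ (x + t) = R₀ x := by
    intro x; rw [hR, hR, PRAT_exp_add ht]
  have hdense : Dense Pᶜ := hPct.dense_compl ℝ
  have hkper : ∀ x, k (x + t) = k x := by
    have hc1 : Continuous (fun x => k (x + t)) := hkd.continuous.comp (by fun_prop)
    have : (fun x => k (x + t)) = k := by
      refine Continuous.ext_on hdense hc1 hkd.continuous ?_
      intro x hx
      have hx' : x ∉ P := hx
      have hxt : x + t ∉ P := fun h => hx' ((hPper x).mp h)
      show k (x + t) = k x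
      rw [hk x hx', hk _ hxt]
      show B (x + t) - R₀ (x + t) = B x - R₀ x
      rw [hBper x hx', hRper]
    intro x
    exact congrFun this x
  -- second derivative
  have hkC : ∀ n : WithTop ℕ∞, ContDiff ℂ n k := fun n => hkd.contDiff
  have hwd : Differentiable ℂ (iteratedDeriv 2 k) :=
    (hkC 3).differentiable_iteratedDeriv 2 (by norm_num)
  have hwper : ∀ x, iteratedDeriv 2 k (x + t) = iteratedDeriv 2 k x := by
    intro x
    have h1 : (fun x => k (x + t)) = k := funext hkper
    have h2 := iteratedDeriv_comp_add_const (𝕜 := ℂ) 2 k t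
    have h3 := congrFun h2 x
    rw [h1] at h3
    exact h3.symm
  have hwK : ∀ x : ℂ, 1 ≤ |(x / t).im| → ‖iteratedDeriv 2 k x‖ ≤ (K₁ + K₀) / |(x / t).im| := by
    intro x hx
    have hxP : x ∉ P := by
      intro h
      rw [hP] at h
      rw [PRAT_im ht h] at hx
      norm_num at hx
    have hnh : Pᶜ ∈ 𝓝 x := hPo.mem_nhds hxP
    have he : k =ᶠ[𝓝 x] (B - R₀) := by
      filter_upwards [hnh] with y hy
      exact hk y hy
    have hBc : ContDiffAt ℂ (2 : ℕ) B x := (L.Bd.analyticAt hnh).contDiffAt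
    have hRc : ContDiffAt ℂ (2 : ℕ) R₀ x := (hRd'.analyticAt hnh).contDiffAt
    rw [he.iteratedDeriv_eq, iteratedDeriv_sub hBc hRc, add_div]
    exact (norm_sub_le _ _).trans (add_le_add (hK₁ x hx) (hK₀ x hx))
  have hw0 := PRAT_liou (iteratedDeriv 2 k) t (K₁ + K₀) ht hwd hwper hwK
  obtain ⟨a, c, hac⟩ := hAFF2 k ∅ hkd countable_empty (fun x _ => hw0 x)
  have hc0 : c = 0 := by
    have h1 := hkper 0
    rw [hac, hac] at h1
    have h2 : c * t = 0 := by linear_combination h1
    exact (mul_eq_zero.mp h2).resolve_right ht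
  refine ⟨a, (2 * Real.pi * I / t) ^ 2 + g 0 * (2 * Real.pi * I / t) - 2 * a,
    a - g 0 * (2 * Real.pi * I / t), by ring, ?_⟩
  intro x hx
  have hy : exp (2 * Real.pi * I * x / t) ≠ 1 := PRAT_exp_ne ht (by rw [← hP]; exact hx)
  have hy' : exp (2 * Real.pi * I * x / t) - 1 ≠ 0 := sub_ne_zero.mpr hy
  have h1 : B x - R₀ x = a := by
    have := hk x hx
    rw [hac, hc0] at this
    simpa using this.symm
  have h2 : B x = a + R₀ x := by linear_combination h1
  rw [h2, hR x]
  field_simp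
  ring

end V3
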